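import Mathlib

set_option autoImplicit false

namespace Pool.Agent.Results.MP_238286_an.FiniteR

/-- Every injective cellular automaton `τ x m = μ (s ↦ x (s * m))` over `M` with a finite alphabet
is surjective. -/
def Surjunctive (M : Type) [Monoid M] : Prop :=
  ∀ (A : Type) [Finite A] (τ : (M → A) → (M → A)),
    (∃ (S : Finset M) (μ : (S → A) → A), ∀ (x : M → A) (m : M), τ x m = μ fun s => x (s.1 * m)) →
    Function.Injective τ → Function.Surjective τ

theorem window {M : Type} [Monoid M]
    (hL : ∀ m : M, {m' : M | (∃ a, m' = a * m) ∧ ∃ b, m = b * m'}.Finite)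
    {A : Type} [Finite A] {τ : (M → A) → (M → A)} {S : Finset M} {μ : (S → A) → A}
    (h : ∀ (x : M → A) (m : M), τ x m = μ fun s => x (s.1 * m)) (hi : Function.Injective τ)
    (y : M → A) (F : Finset M) : ∃ x, ∀ m ∈ F, τ x m = y m := by
  classical
  induction F using Finset.strongInduction with
  | H F ih =>
  rcases F.eq_empty_or_nonempty with rfl | hF
  · exact ⟨y, by simp⟩
  obtain ⟨m0, hm0, hmax⟩ := F.exists_max_image
    (fun m => (F.filter fun k => ∃ a, k = a * m).card) hF
  have hmx : ∀ m ∈ F, (∃ b, m0 = b * m) → ∃ a, m = a * m0 := by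
    rintro m hm ⟨b, hb⟩
    have hsub : (F.filter fun k => ∃ a, k = a * m0) ⊆ F.filter fun k => ∃ a, k = a * m := by
      intro k hk
      obtain ⟨h1, a, ha⟩ := Finset.mem_filter.1 hk
      exact Finset.mem_filter.2 ⟨h1, a * b, by rw [ha, hb, mul_assoc]⟩
    have := Finset.eq_of_subset_of_card_le hsub (hmax m hm)
    have h2 : m ∈ F.filter fun k => ∃ a, k = a * m := Finset.mem_filter.2 ⟨hm, 1, (one_mul m).symm⟩
    rw [← this] at h2
    exact (Finset.mem_filter.1 h2).2
  set C : Set M := {m' : M | (∃ a, m' = a * m0) ∧ ∃ b, m0 = b * m'} with hC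
  have : Finite C := (hL m0).to_subtype
  have h0 : m0 ∈ C := ⟨⟨1, (one_mul _).symm⟩, 1, (one_mul _).symm⟩
  obtain ⟨x', hx'⟩ := ih (F.filter fun k => k ∉ C)
    (Finset.filter_ssubset.2 ⟨m0, hm0, fun hh => hh h0⟩)
  let ext : (C → A) → M → A := fun z m => if hm : m ∈ C then z ⟨m, hm⟩ else x' m
  have hup : ∀ s k : M, s * k ∈ C → ∃ b, m0 = b * k := by
    rintro s k ⟨_, b, hb⟩
    exact ⟨b * s, by rw [mul_assoc]; exact hb⟩
  have hinj : Function.Injective fun (z : C → A) (c : C) => τ (ext z) c := by
    intro z z' hz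
    funext c
    have key : τ (fun m => ext z (m * c)) = τ fun m => ext z' (m * c) := by
      funext m
      by_cases hm : m * c ∈ C
      · have := congrFun hz ⟨_, hm⟩
        simp only [h] at this ⊢
        simpa only [mul_assoc] using this
      · simp only [h]
        congr 1
        funext s
        have : s.1 * m * c ∉ C := fun hs => by
          obtain ⟨a, ha⟩ := c.2.1
          refine hm ⟨⟨m * a, by rw [mul_assoc, ← ha]⟩, hup s.1 _ (by rwa [← mul_assoc])⟩
        simp only [ext, dif_neg this]
    have := congrFun (hi key) 1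
    simpa only [ext, one_mul, dif_pos c.2] using this
  obtain ⟨z, hz⟩ := Finite.surjective_of_injective hinj fun c => y c
  refine ⟨ext z, fun m hm => ?_⟩
  by_cases hc : m ∈ C
  · exact congrFun hz ⟨m, hc⟩
  · rw [← hx' m (Finset.mem_filter.2 ⟨hm, hc⟩), h, h]
    congr 1
    funext s
    have : s.1 * m ∉ C := fun hs => hc ⟨hmx m hm (hup _ _ hs), hup _ _ hs⟩
    simp only [ext, dif_neg this]

theorem left {M : Type} [Monoid M]
    (hL : ∀ m : M, {m' : M | (∃ a, m' = a * m) ∧ ∃ b, m = b * m'}.Finite) : Surjunctive M := by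
  classical
  rintro A _ τ ⟨S, μ, h⟩ hi y
  let : TopologicalSpace A := ⊥
  have : DiscreteTopology A := ⟨rfl⟩
  have hc : Continuous τ := continuous_pi fun m => by
    simp only [h]
    exact continuous_of_discreteTopology.comp (continuous_pi fun s => continuous_apply _)
  choose x hx using window hL h hi y
  have ht : Filter.Tendsto (fun F : Finset M => τ (x F)) Filter.atTop (nhds y) := by
    refine tendsto_pi_nhds.2 fun m => ?_
    refine tendsto_const_nhds.congr' ?_
    filter_upwards [Filter.eventually_ge_atTop {m}] with F hF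
    exact (hx F m (hF (Finset.mem_singleton_self m))).symm
  exact (isCompact_range hc).isClosed.mem_of_tendsto ht
    (Filter.Eventually.of_forall fun F => Set.mem_range_self _)

theorem result (M : Type) [Monoid M]
    (hR : ∀ m : M, {m' : M | (∃ a, m' = m * a) ∧ ∃ b, m = m' * b}.Finite) : Surjunctive Mᵐᵒᵖ := by
  refine left fun m => ?_
  refine ((hR m.unop).image MulOpposite.op).subset ?_
  rintro m' ⟨⟨a, ha⟩, b, hb⟩
  exact ⟨m'.unop, ⟨⟨a.unop, by rw [ha, MulOpposite.unop_mul]⟩, b.unop,
    by rw [← MulOpposite.unop_mul, ← hb]⟩, rfl⟩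

end Pool.Agent.Results.MP_238286_an.FiniteR
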